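import Pool.Agent.H37.CPX.Targets

/-!
# Row BIA: small bias of the characters on spread rectangles
-/

set_option autoImplicit false

namespace Pool.Agent.H46.CPX

open Finset Pool.Agent.H37.CPX

namespace BIAX

theorem sgn_add (a b : ZMod 2) : sgn (a + b) = sgn a * sgn b := by
  revert a b
  unfold sgn
  have h : ∀ a b : ZMod 2, (a + b = 0 ↔ (a = 0 ↔ b = 0)) := by decide
  intro a b
  by_cases ha : a = 0 <;> by_cases hb : b = 0 <;> simp [h a b, ha, hb]

theorem fiber {N : ℕ} {Q : Type} [Fintype Q] (U : Finset (Fin N)) (A : Finset (Fin N → Q))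
    (f : (U → Q) → ℝ) :
    ∑ x ∈ A, f (fun i : U => x i) = ∑ u : U → Q, ((cyl U u A).card : ℝ) * f u := by
  classical
  rw [← Finset.sum_fiberwise A (fun x => (fun i : U => x i)) (fun x => f (fun i : U => x i))]
  refine Finset.sum_congr rfl fun u _ => ?_
  have h1 : ∑ i ∈ A with (fun x : Fin N → Q => (fun i : U => x i)) i = u,
      f (fun j : U => i j) = ∑ i ∈ A with (fun x : Fin N → Q => (fun i : U => x i)) i = u, f u := by
    refine Finset.sum_congr rfl fun x hx => ?_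
    rw [Finset.mem_filter] at hx
    exact congrArg f hx.2
  rw [h1, Finset.sum_const, nsmul_eq_mul]
  congr 2
  unfold cyl
  congr 1
  ext x
  simp only [Finset.mem_filter, funext_iff]

theorem chi_eq {N q : ℕ} (U : Finset (Fin N)) (x : PX N q) (y : PY N q) :
    chi U (pt x y) = ∏ i : U, sgn ((fun j : U => y j) i ((fun j : U => x j) i)) := by
  unfold chi pt
  rw [Finset.prod_coe_sort U (fun i => sgn (y i (x i)))]

/-- power mean -/
theorem pmean {α : Type} (s : Finset α) (b w : α → ℝ) (hb : ∀ t ∈ s, 0 ≤ b t) (B : ℝ)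
    (hB : ∑ t ∈ s, b t = B) (hB0 : 0 < B) {r : ℕ} (hr : Even r) :
    (∑ t ∈ s, b t * w t) ^ r * B ≤ B ^ r * ∑ t ∈ s, b t * w t ^ r := by
  have h := Real.pow_arith_mean_le_arith_mean_pow_of_even s (fun t => b t / B) w
    (fun t ht => div_nonneg (hb t ht) hB0.le) (by rw [← Finset.sum_div, hB, div_self hB0.ne']) hr
  have e1 : ∑ t ∈ s, b t / B * w t = (∑ t ∈ s, b t * w t) / B := by
    rw [Finset.sum_div]
    exact Finset.sum_congr rfl fun t _ => by ring
  have e2 : ∑ t ∈ s, b t / B * w t ^ r = (∑ t ∈ s, b t * w t ^ r) / B := by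
    rw [Finset.sum_div]
    exact Finset.sum_congr rfl fun t _ => by ring
  rw [e1, e2, div_pow, div_le_div_iff₀ (by positivity) hB0] at h
  linarith

/-- the sum of the squares -/
theorem second {ι : Type} [Fintype ι] [DecidableEq ι] (q r : ℕ)
    (b : (ι → (Fin q → ZMod 2)) → ℝ) (hb : ∀ t, 0 ≤ b t) (K bm M B : ℝ) (hr : Even r)
    (hr0 : r ≠ 0) (hK : ∑ s : Fin q → ZMod 2, (∑ h, sgn (s h)) ^ r ≤ K) (hbm : ∀ t, b t ≤ bm)
    (hB : ∑ t, b t = B) (hB0 : 0 < B) (hM : 0 ≤ M)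
    (hMr : B ^ r * (bm * K ^ Fintype.card ι) ≤ M ^ r * B) :
    ∑ u : ι → Fin q, (∑ t, b t * ∏ i, sgn (t i (u i))) ^ 2 ≤ B * M := by
  classical
  -- the sum over `u`
  have e1 : ∑ u : ι → Fin q, (∑ t, b t * ∏ i, sgn (t i (u i))) ^ 2 =
      ∑ t' : ι → (Fin q → ZMod 2), b t' * ∑ t : ι → (Fin q → ZMod 2),
        b t * ∏ i, ∑ h, sgn ((t i + t' i) h) := by
    have : ∀ u : ι → Fin q, (∑ t, b t * ∏ i, sgn (t i (u i))) ^ 2 =
        ∑ t' : ι → (Fin q → ZMod 2), ∑ t : ι → (Fin q → ZMod 2),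
          b t' * (b t * ∏ i, sgn ((t i + t' i) (u i))) := by
      intro u
      rw [sq, Finset.sum_mul_sum]
      refine Finset.sum_congr rfl fun t' _ => Finset.sum_congr rfl fun t _ => ?_
      have : ∏ i, sgn ((t i + t' i) (u i)) = (∏ i, sgn (t i (u i))) * ∏ i, sgn (t' i (u i)) := by
        rw [← Finset.prod_mul_distrib]
        exact Finset.prod_congr rfl fun i _ => by rw [Pi.add_apply, sgn_add]
      rw [this]
      ring
    rw [Finset.sum_congr rfl fun u _ => this u, Finset.sum_comm]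
    refine Finset.sum_congr rfl fun t' _ => ?_
    rw [Finset.sum_comm, Finset.mul_sum]
    refine Finset.sum_congr rfl fun t _ => ?_
    rw [← Finset.mul_sum, ← Finset.mul_sum, Finset.prod_univ_sum]
    rw [Fintype.piFinset_univ]
  have hV : ∀ t' : ι → (Fin q → ZMod 2), ∑ t : ι → (Fin q → ZMod 2),
      b t * ∏ i, ∑ h, sgn ((t i + t' i) h) ≤ M := by
    intro t'
    have hp := pmean univ b (fun t => ∏ i, ∑ h, sgn ((t i + t' i) h)) (fun t _ => hb t) B hB hB0 hr
    have h0 : ∀ s : Fin q → ZMod 2, 0 ≤ (∑ h, sgn (s h)) ^ r := fun s => hr.pow_nonneg _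
    have h1 : ∑ t : ι → (Fin q → ZMod 2), b t * (∏ i, ∑ h, sgn ((t i + t' i) h)) ^ r ≤
        bm * K ^ Fintype.card ι := by
      have h2 : ∑ t : ι → (Fin q → ZMod 2), (∏ i, ∑ h, sgn ((t i + t' i) h)) ^ r =
          (∑ s : Fin q → ZMod 2, (∑ h, sgn (s h)) ^ r) ^ Fintype.card ι := by
        have h3 : ∀ i : ι, ∑ s : Fin q → ZMod 2, (∑ h, sgn ((s + t' i) h)) ^ r =
            ∑ s : Fin q → ZMod 2, (∑ h, sgn (s h)) ^ r := fun i =>
          Equiv.sum_comp (Equiv.addRight (t' i))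
            (fun s : Fin q → ZMod 2 => (∑ h, sgn (s h)) ^ r)
        calc ∑ t : ι → (Fin q → ZMod 2), (∏ i, ∑ h, sgn ((t i + t' i) h)) ^ r
            = ∑ t ∈ Fintype.piFinset fun _ : ι => (univ : Finset (Fin q → ZMod 2)),
                ∏ i, (∑ h, sgn ((t i + t' i) h)) ^ r := by
              rw [Fintype.piFinset_univ]
              exact Finset.sum_congr rfl fun t _ => by rw [Finset.prod_pow]
          _ = ∏ i : ι, ∑ s : Fin q → ZMod 2, (∑ h, sgn ((s + t' i) h)) ^ r := by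
              rw [← Finset.prod_univ_sum (fun _ : ι => (univ : Finset (Fin q → ZMod 2)))
                (fun i s => (∑ h, sgn ((s + t' i) h)) ^ r)]
          _ = _ := by
              rw [Finset.prod_congr rfl fun i _ => h3 i, Finset.prod_const, Finset.card_univ]
      have hbm0 : 0 ≤ bm := (hb 0).trans (hbm 0)
      calc ∑ t : ι → (Fin q → ZMod 2), b t * (∏ i, ∑ h, sgn ((t i + t' i) h)) ^ r
          ≤ ∑ t : ι → (Fin q → ZMod 2), bm * (∏ i, ∑ h, sgn ((t i + t' i) h)) ^ r :=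
            Finset.sum_le_sum fun t _ => mul_le_mul_of_nonneg_right (hbm t) (hr.pow_nonneg _)
        _ = bm * (∑ s : Fin q → ZMod 2, (∑ h, sgn (s h)) ^ r) ^ Fintype.card ι := by
            rw [← Finset.mul_sum, h2]
        _ ≤ bm * K ^ Fintype.card ι := by
            refine mul_le_mul_of_nonneg_left ?_ hbm0
            exact pow_le_pow_left₀ (Finset.sum_nonneg fun s _ => h0 s) hK _
    by_contra hlt
    push Not at hlt
    have h4 := pow_lt_pow_left₀ hlt hM hr0
    have h5 : (∑ t : ι → (Fin q → ZMod 2), b t * ∏ i, ∑ h, sgn ((t i + t' i) h)) ^ r * B ≤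
        M ^ r * B := by
      refine hp.trans (le_trans ?_ hMr)
      exact mul_le_mul_of_nonneg_left h1 (by positivity)
    have h6 := le_of_mul_le_mul_right h5 hB0
    linarith
  rw [e1]
  calc ∑ t' : ι → (Fin q → ZMod 2), b t' * ∑ t : ι → (Fin q → ZMod 2),
        b t * ∏ i, ∑ h, sgn ((t i + t' i) h)
      ≤ ∑ t' : ι → (Fin q → ZMod 2), b t' * M :=
        Finset.sum_le_sum fun t' _ => mul_le_mul_of_nonneg_left (hV t') (hb t')
    _ = B * M := by rw [← Finset.sum_mul, hB]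

/-- the general form -/
theorem general {N q r : ℕ} (p : ℝ) (T U : Finset (Fin N)) (X' : Finset (PX N q))
    (Y' : Finset (PY N q)) (hp : 1 ≤ p) (hr : Even r) (hr0 : r ≠ 0) (hrq : r ≤ q)
    (hK : ∑ s : Fin q → ZMod 2, (∑ h, sgn (s h)) ^ r ≤ 2 ^ q * (2 * p ^ 12) ^ r)
    (hU : U.Nonempty) (hUT : Disjoint U T) (hX : Spr (p ^ 14) 4 T X')
    (hY : Spr ((2 : ℝ) ^ (q - r)) (2 ^ (r + 1)) T Y') :
    (∑ x ∈ X', ∑ y ∈ Y', chi U (pt x y)) ^ 2 * (p ^ 2) ^ U.card ≤
      64 ^ U.card * ((X'.card : ℝ) * Y'.card) ^ 2 := by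
  classical
  rcases Y'.eq_empty_or_nonempty with hYe | hYne
  · subst hYe
    simp
  have hYpos : (0 : ℝ) < Y'.card := by exact_mod_cast hYne.card_pos
  have hp0 : 0 < p := by linarith
  set a : (U → Fin q) → ℝ := fun u => ((cyl U u X').card : ℝ) with ha
  set b : (U → (Fin q → ZMod 2)) → ℝ := fun t => ((cyl U t Y').card : ℝ) with hb
  set S : (U → Fin q) → ℝ := fun u => ∑ t, b t * ∏ i, sgn (t i (u i)) with hS
  have suma : ∑ u, a u = X'.card := by
    have := fiber U X' (fun _ => 1)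
    simp only [Finset.sum_const, nsmul_eq_mul, mul_one] at this
    rw [this]
  have sumb : ∑ t, b t = Y'.card := by
    have := fiber U Y' (fun _ => 1)
    simp only [Finset.sum_const, nsmul_eq_mul, mul_one] at this
    rw [this]
  have e : ∑ x ∈ X', ∑ y ∈ Y', chi U (pt x y) = ∑ u, a u * S u := by
    rw [← fiber U X' S]
    refine Finset.sum_congr rfl fun x _ => ?_
    rw [hS]
    simp only
    rw [← fiber U Y' (fun t => ∏ i, sgn (t i (x i)))]
    refine Finset.sum_congr rfl fun y _ => ?_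
    rw [chi_eq]
  have hCS : (∑ u, a u * S u) ^ 2 ≤ (∑ u, a u ^ 2) * ∑ u, S u ^ 2 :=
    Finset.sum_mul_sq_le_sq_mul_sq _ _ _
  have h1 : (∑ u, a u ^ 2) * (p ^ 14) ^ U.card ≤ 4 * (X'.card : ℝ) ^ 2 := by
    calc (∑ u, a u ^ 2) * (p ^ 14) ^ U.card = ∑ u, a u * (a u * (p ^ 14) ^ U.card) := by
          rw [Finset.sum_mul]
          exact Finset.sum_congr rfl fun u _ => by ring
      _ ≤ ∑ u, a u * (4 * X'.card) :=
          Finset.sum_le_sum fun u _ => mul_le_mul_of_nonneg_left (hX U hU hUT u)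
            (Nat.cast_nonneg _)
      _ = 4 * (X'.card : ℝ) ^ 2 := by rw [← Finset.sum_mul, suma]; ring
  have h2 : ∑ u, S u ^ 2 ≤ (Y'.card : ℝ) * (4 * Y'.card * (4 * p ^ 12) ^ U.card) := by
    have hpow : (0 : ℝ) < (2 ^ (q - r)) ^ U.card := by positivity
    refine second q r b (fun t => Nat.cast_nonneg _) (2 ^ q * (2 * p ^ 12) ^ r)
      (2 ^ (r + 1) * Y'.card / (2 ^ (q - r)) ^ U.card) _ _ hr hr0 hK ?_ sumb hYpos
      (by positivity) ?_
    · intro t
      rw [le_div_iff₀ hpow]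
      exact hY U hU hUT t
    · have hc : Fintype.card U = U.card := Fintype.card_coe U
      rw [hc]
      have hq : (2 : ℝ) ^ q = 2 ^ (q - r) * 2 ^ r := by
        rw [← pow_add]
        congr 1
        omega
      have e3 : (2 : ℝ) ^ (r + 1) * Y'.card / (2 ^ (q - r)) ^ U.card *
          (2 ^ q * (2 * p ^ 12) ^ r) ^ U.card =
          2 ^ (r + 1) * Y'.card * ((4 * p ^ 12) ^ U.card) ^ r := by
        have : ((2 : ℝ) ^ q * (2 * p ^ 12) ^ r) ^ U.card =
            (2 ^ (q - r)) ^ U.card * ((4 * p ^ 12) ^ U.card) ^ r := by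
          have e4 : (2 : ℝ) ^ r * (2 * p ^ 12) ^ r = (4 * p ^ 12) ^ r := by
            rw [← mul_pow]
            congr 1
            ring
          rw [hq, mul_assoc, e4, mul_pow, ← pow_mul (4 * p ^ 12) r, ← pow_mul (4 * p ^ 12) U.card,
            mul_comm r U.card]
        rw [this]
        field_simp
      rw [e3]
      have h4 : (2 : ℝ) ^ (r + 1) ≤ 4 ^ r := by
        have : (4 : ℝ) ^ r = 2 ^ (2 * r) := by rw [pow_mul]; norm_num
        rw [this]
        exact pow_le_pow_right₀ (by norm_num) (by omega)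
      have e5 : (4 * (Y'.card : ℝ) * (4 * p ^ 12) ^ U.card) ^ r * Y'.card =
          (Y'.card : ℝ) ^ r * (4 ^ r * Y'.card * ((4 * p ^ 12) ^ U.card) ^ r) := by
        rw [mul_pow, mul_pow]
        ring
      rw [e5]
      refine mul_le_mul_of_nonneg_left ?_ (by positivity)
      refine mul_le_mul_of_nonneg_right ?_ (by positivity)
      exact mul_le_mul_of_nonneg_right h4 hYpos.le
  have h64 : (16 : ℝ) * 4 ^ U.card ≤ 64 ^ U.card := by
    have : (64 : ℝ) ^ U.card = 16 ^ U.card * 4 ^ U.card := by rw [← mul_pow]; norm_num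
    rw [this]
    refine mul_le_mul_of_nonneg_right ?_ (by positivity)
    exact le_self_pow₀ (by norm_num) hU.card_pos.ne'
  rw [e]
  have hSS : 0 ≤ ∑ u, a u ^ 2 := Finset.sum_nonneg fun u _ => sq_nonneg _
  calc (∑ u, a u * S u) ^ 2 * (p ^ 2) ^ U.card
      ≤ ((∑ u, a u ^ 2) * ∑ u, S u ^ 2) * (p ^ 2) ^ U.card :=
        mul_le_mul_of_nonneg_right hCS (by positivity)
    _ ≤ ((∑ u, a u ^ 2) * ((Y'.card : ℝ) * (4 * Y'.card * (4 * p ^ 12) ^ U.card))) *
          (p ^ 2) ^ U.card :=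
        mul_le_mul_of_nonneg_right (mul_le_mul_of_nonneg_left h2 hSS) (by positivity)
    _ = ((∑ u, a u ^ 2) * (p ^ 14) ^ U.card) * (4 * (Y'.card : ℝ) ^ 2 * 4 ^ U.card) := by
        have : (p ^ 14) ^ U.card = (p ^ 12) ^ U.card * (p ^ 2) ^ U.card := by
          rw [← mul_pow]
          congr 1
          ring
        rw [this, mul_pow 4 (p ^ 12)]
        ring
    _ ≤ (4 * (X'.card : ℝ) ^ 2) * (4 * (Y'.card : ℝ) ^ 2 * 4 ^ U.card) :=
        mul_le_mul_of_nonneg_right h1 (by positivity)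
    _ = (16 * 4 ^ U.card) * ((X'.card : ℝ) * Y'.card) ^ 2 := by ring
    _ ≤ 64 ^ U.card * ((X'.card : ℝ) * Y'.card) ^ 2 :=
        mul_le_mul_of_nonneg_right h64 (by positivity)

end BIAX

open BIAX

theorem pf_BIA (hK : S_KHI) : S_BIA := by
  intro N P T U X' Y' hPe hP hU hUT hX hY
  have hk := hK P hPe
  have hr : Even (P ^ 8) := hPe.pow_of_ne_zero (by norm_num)
  have hr0 : P ^ 8 ≠ 0 := by positivity
  have hrq : P ^ 8 ≤ P ^ 16 := Nat.pow_le_pow_right (by omega) (by norm_num)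
  exact general (q := P ^ 16) (r := P ^ 8) (P : ℝ) T U X' Y' (by exact_mod_cast (by omega : 1 ≤ P))
    hr hr0 hrq hk hU hUT hX hY

end Pool.Agent.H46.CPX
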